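import Mathlib
import Pool.Agent.Helper43x.ZO.Main
import Pool.Agent.Y742.GG.Fg

/-!
# CM fields without exotic Tate classes: the criterion
-/

set_option autoImplicit false

namespace Pool.Agent.Helper43x.UC

open NumberField NumberField.IsCMField Pool.Agent.H485R3 Pool.Agent.H925R2
open Pool.Agent.Helper43x.ZO
open Pool.Agent.H485R3.Exact (ldev ldev_conj norm_p_padic norm_eq_one_of_ne)

variable {I : Type} [Fintype I] {K : I → Type} [∀ i, Field (K i)] [∀ i, NumberField (K i)]
  [∀ i, IsCMField (K i)] {A : Type} [Field A] [CharZero A]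

/-- the action of the automorphisms on the embeddings -/
def gact (g : A ≃+* A) (x : Σ i, K i →+* A) : Σ i, K i →+* A := ⟨x.1, (g : A →+* A).comp x.2⟩

/-- stable spaces of odd functions -/
def OddStable (W : Submodule ℚ ((Σ i, K i →+* A) → ℚ)) : Prop :=
  (∀ f ∈ W, ∀ x, f (cj x) = - f x) ∧ ∀ g : A ≃+* A, ∀ f ∈ W, (fun x => f (gact g x)) ∈ W

/-- the space separates the embeddings -/
def Sep (W : Submodule ℚ ((Σ i, K i →+* A) → ℚ)) : Prop :=
  ∀ x y, (∀ f ∈ W, f x = f y) → x = y

/-- every separating stable space of odd functions contains all odd functions -/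
def Crit3 (K : I → Type) [∀ i, Field (K i)] [∀ i, NumberField (K i)] [∀ i, IsCMField (K i)]
    (A : Type) [Field A] : Prop :=
  ∀ W : Submodule ℚ ((Σ i, K i →+* A) → ℚ), OddStable W → Sep W →
    ∀ f, (∀ x, f (cj x) = - f x) → f ∈ W

/-- all separated families are good at `p` -/
def GoodAt (p : ℕ) (K : I → Type) [∀ i, Field (K i)] : Prop :=
  ∀ (a : ℕ) (π : ∀ i, K i), WeilTuple p a π → Separated π → Generated π (p ^ a)

omit [Fintype I] [∀ i, IsCMField (K i)] in
theorem separated_iff [Algebra ℚ A] [IsAlgClosed A] [Algebra.IsAlgebraic ℚ A] (π : ∀ i, K i) :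
    Separated π ↔ ∀ n : ℕ, 0 < n → ∀ x y : Σ i, K i →+* A,
      (x.2 (π x.1)) ^ n = (y.2 (π y.1)) ^ n → x = y := by
  let ι : A →+* ℂ := (IsAlgClosed.lift : A →ₐ[ℚ] ℂ).toRingHom
  constructor
  · intro h n hn x y hxy
    obtain ⟨i, σ⟩ := x
    obtain ⟨i', σ'⟩ := y
    have h1 : (⟨i, ι.comp σ⟩ : Σ i, K i →+* ℂ) = ⟨i', ι.comp σ'⟩ := by
      apply h n hn
      change (ι (σ (π i))) ^ n = (ι (σ' (π i'))) ^ n
      have h2 := congrArg ι hxy
      rw [map_pow, map_pow] at h2
      exact h2
    have h2 : i = i' := congrArg Sigma.fst h1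
    subst h2
    have h3 : ι.comp σ = ι.comp σ' := eq_of_heq (Sigma.mk.inj h1).2
    congr 1
    ext w
    apply ι.injective
    exact congrArg (fun f : K i →+* ℂ => f w) h3
  · intro h n hn x x' hxx
    obtain ⟨τ, hτ⟩ := exists_factor' ι x.2
    obtain ⟨τ', hτ'⟩ := exists_factor' ι x'.2
    have h1 : (⟨x.1, τ⟩ : Σ i, K i →+* A) = ⟨x'.1, τ'⟩ := by
      apply h n hn
      apply ι.injective
      rw [map_pow, map_pow]
      change (ι (τ (π x.1))) ^ n = (ι (τ' (π x'.1))) ^ n
      rw [hτ, hτ']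
      exact hxx
    obtain ⟨i, σ⟩ := x
    obtain ⟨i', σ'⟩ := x'
    have h2 : i = i' := congrArg Sigma.fst h1
    subst h2
    have h3 : τ = τ' := eq_of_heq (Sigma.mk.inj h1).2
    subst h3
    congr 1
    ext w
    exact (hτ w).symm.trans (hτ' w)

/-- separated if the slopes separate -/
theorem separated_of_Dv {p : ℕ} [Fact p.Prime] [Algebra ℚ A] [IsAlgClosed A]
    [Algebra.IsAlgebraic ℚ A] {a : ℕ} {π : ∀ i, K i}
    (h : ∀ x y : Σ i, K i →+* A, (∀ e, Dv p a π e x = Dv p a π e y) → x = y) :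
    Separated π := by
  rw [separated_iff (A := A)]
  intro n hn x y hxy
  apply h
  intro e
  have h1 := congrArg (fun w => Real.log ‖e w‖) hxy
  simp only [map_pow, norm_pow, Real.log_pow] at h1
  have hn' : (n : ℝ) ≠ 0 := by exact_mod_cast hn.ne'
  have h2 := mul_left_cancel₀ hn' h1
  unfold Dv ldev
  rw [h2]

/-- if the numbers are separated the slopes separate -/
theorem Dv_of_separated {p : ℕ} [Fact p.Prime] [Algebra ℚ A] [IsAlgClosed A]
    [Algebra.IsAlgebraic ℚ A] {a : ℕ} {π : ∀ i, K i} (hπ : WeilTuple p a π) (hs : Separated π)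
    (x y : Σ i, K i →+* A) (h : ∀ e, Dv p a π e x = Dv p a π e y) : x = y := by
  have hv : ∀ x : Σ i, K i →+* A, x.2 (π x.1) ≠ 0 := fun x => (map_ne_zero _).2 (weil_ne hπ _)
  obtain ⟨n, hn, h1⟩ : ∃ n : ℕ, 0 < n ∧ (x.2 (π x.1) / y.2 (π y.1)) ^ n = 1 := by
    apply root_of_unity'
    · intro l _ e
      rw [map_div₀, norm_div]
      by_cases hl : l = p
      · subst hl
        have h1 := h e
        unfold Dv ldev at h1
        have h2 : Real.log ‖e (x.2 (π x.1))‖ = Real.log ‖e (y.2 (π y.1))‖ := by linarith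
        have h3 := Real.log_injOn_pos
          (Set.mem_Ioi.2 (norm_pos_iff.2 ((map_ne_zero e).2 (hv x))))
          (Set.mem_Ioi.2 (norm_pos_iff.2 ((map_ne_zero e).2 (hv y)))) h2
        rw [h3, div_self]
        exact norm_ne_zero_iff.2 ((map_ne_zero e).2 (hv y))
      · have h2 : ∀ x : Σ i, K i →+* A, ‖e (x.2 (π x.1))‖ = 1 := fun x =>
          norm_eq_one_of_ne p a (π x.1) (hπ _).1 (hπ _).2 l hl (e.comp x.2)
        rw [h2, h2, div_one]
    · intro φ
      rw [map_div₀, norm_div]
      have h2 : ∀ x : Σ i, K i →+* A, ‖φ (x.2 (π x.1))‖ ^ 2 = (p : ℝ) ^ a := fun x =>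
        (hπ x.1).2 (φ.comp x.2)
      have h3 : ‖φ (x.2 (π x.1))‖ = ‖φ (y.2 (π y.1))‖ :=
        (pow_left_inj₀ (norm_nonneg _) (norm_nonneg _) two_ne_zero).1 ((h2 x).trans (h2 y).symm)
      rw [h3, div_self]
      exact norm_ne_zero_iff.2 ((map_ne_zero φ).2 (hv y))
  rw [div_pow, div_eq_one_iff_eq (pow_ne_zero _ (hv y))] at h1
  exact (separated_iff (A := A) π).1 hs n hn x y h1

/-- (3) implies (1) -/
theorem good_of_crit [Algebra ℚ A] [IsAlgClosed A] [Algebra.IsAlgebraic ℚ A] (hc : Crit3 K A)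
    (p : ℕ) [Fact p.Prime] : GoodAt p K := by
  classical
  intro a π hπ hsep
  have hp : p.Prime := Fact.out
  have hlog : 0 < Real.log p := Real.log_pos (by exact_mod_cast hp.one_lt)
  have hρ : ∀ (e : A →+* PadicAlgCl p) (j : Σ i, K i →+* A), ∃ r : ℚ,
      Dv p a π e j = r * Real.log p := by
    intro e j
    obtain ⟨r, hr⟩ := exists_rat p (e.comp j.2) (π j.1) (weil_ne hπ _)
    refine ⟨2 * r + a, ?_⟩
    have h1 := hr _ rfl
    unfold Dv ldev
    change Real.log ‖e (j.2 (π j.1))‖ = _ at h1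
    rw [h1]
    push_cast
    ring
  choose ρ hρ using hρ
  have hρc : ∀ e j, ρ e (cj j) = - ρ e j := by
    intro e j
    have h1 := Dv_cj hπ e j
    rw [hρ, hρ, ← neg_mul] at h1
    have h2 := mul_right_cancel₀ hlog.ne' h1
    exact_mod_cast h2
  have hfun : (fun e j => (ρ e j : ℝ) * Real.log p) = Dv p a π (K := K) (A := A) := by
    funext e j
    rw [hρ]
  apply generated_of_norel (A := A) hπ
  rw [← hfun]
  refine norel_cast cj cj_cj' cj_ne' hρc _ hlog.ne' ?_
  let W : Submodule ℚ ((Σ i, K i →+* A) → ℚ) := Submodule.span ℚ (Set.range ρ)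
  have hW1 : OddStable W := by
    constructor
    · intro f hf
      induction hf using Submodule.span_induction with
      | mem f hf =>
        obtain ⟨e, rfl⟩ := hf
        exact hρc e
      | zero => intro x; simp
      | add f g _ _ hf hg => intro x; rw [Pi.add_apply, Pi.add_apply, hf, hg]; ring
      | smul c f _ hf => intro x; rw [Pi.smul_apply, Pi.smul_apply, hf, smul_neg]
    · intro g f hf
      induction hf using Submodule.span_induction with
      | mem f hf =>
        obtain ⟨e, rfl⟩ := hf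
        apply Submodule.subset_span
        refine ⟨e.comp (g : A →+* A), ?_⟩
        funext x
        have h1 : Dv p a π (e.comp (g : A →+* A)) x = Dv p a π e (gact g x) := rfl
        rw [hρ, hρ] at h1
        have h2 := mul_right_cancel₀ hlog.ne' h1
        exact_mod_cast h2
      | zero => exact Submodule.zero_mem _
      | add f g _ _ hf hg => exact Submodule.add_mem _ hf hg
      | smul c f _ hf => exact Submodule.smul_mem _ c hf
  have hW2 : Sep W := by
    intro x y hxy
    refine Dv_of_separated hπ hsep x y fun e => ?_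
    rw [hρ, hρ, hxy (ρ e) (Submodule.subset_span ⟨e, rfl⟩)]
  intro b hb hrel
  have h1 : b ∈ W := hc W hW1 hW2 b hb
  have h2 : ∀ f ∈ W, ∑ j, b j * f j = 0 := by
    intro f hf
    induction hf using Submodule.span_induction with
    | mem f hf =>
      obtain ⟨e, rfl⟩ := hf
      exact hrel e
    | zero => simp
    | add f g _ _ hf hg => simp only [Pi.add_apply, mul_add, Finset.sum_add_distrib, hf, hg, add_zero]
    | smul c f _ hf =>
      simp only [Pi.smul_apply, smul_eq_mul]
      have h3 : ∑ j, b j * (c * f j) = c * ∑ j, b j * f j := by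
        rw [Finset.mul_sum]
        exact Finset.sum_congr rfl fun j _ => by ring
      rw [h3, hf, mul_zero]
  have h3 := h2 b h1
  rw [Finset.sum_eq_zero_iff_of_nonneg (fun j _ => mul_self_nonneg _)] at h3
  funext j
  exact mul_self_eq_zero.1 (h3 j (Finset.mem_univ j))

/-- the size of the units is a rational multiple of `log p` -/
theorem rad_rat {K : Type} [Field K] [NumberField K] [IsCMField K] (p : ℕ) [Fact p.Prime]
    (s : HP p K) : ∃ r : ℚ, 0 < r ∧ HP.rad p s = r * Real.log p := by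
  have hlog : 0 < Real.log p := Real.log_pos (by exact_mod_cast (Fact.out : p.Prime).one_lt)
  obtain ⟨r, hr⟩ := exists_rat p (HP.emb p s) (HP.eta p s) (HP.eta_spec p s).1
  have h1 := hr _ rfl
  rw [(HP.eta_spec p s).2.2.2.2.2, HP.sg_emb, if_pos rfl] at h1
  have h2 : HP.rad p s = ((-r : ℚ) : ℝ) * Real.log p := by
    push_cast at h1 ⊢
    linarith
  refine ⟨-r, ?_, h2⟩
  have h3 := (HP.eta_spec p s).2.1
  rw [h2] at h3
  have h4 := (mul_pos_iff_of_pos_right hlog).1 h3
  exact_mod_cast h4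

/-- every odd integral function on the places is realised by Weil numbers, up to a factor -/
theorem realize (p : ℕ) [Fact p.Prime] (n : ∀ i, (K i →+* PadicAlgCl p) → ℤ)
    (hn1 : ∀ i y, n i (bar y) = - n i y)
    (hn2 : ∀ i y y', primeOf p y = primeOf p y' → n i y = n i y') :
    ∃ (a : ℕ) (π : ∀ i, K i) (c : ℝ), c ≠ 0 ∧ WeilTuple p a π ∧
      ∀ (e : A →+* PadicAlgCl p) (x : Σ i, K i →+* A),
        Dv p a π e x = c * n x.1 (e.comp x.2) := by
  classical
  have hp : p.Prime := Fact.out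
  have hlog : 0 < Real.log p := Real.log_pos (by exact_mod_cast hp.one_lt)
  choose r hr0 hr using fun s : Ix p K => rad_rat p s.2
  obtain ⟨N, hN, m, hm⟩ := exists_denominator
    (fun s : Ix p K => - (n s.1 (HP.emb p s.2) : ℚ) / r s)
  have hcoord : ∀ s : Ix p K, rd p s * m s = - (2 * N * Real.log p) * n s.1 (HP.emb p s.2) := by
    intro s
    have h1 : ((m s : ℚ) : ℝ) = ((N * (- (n s.1 (HP.emb p s.2) : ℚ) / r s) : ℚ) : ℝ) := by
      rw [hm]
    have h2 : (r s : ℝ) ≠ 0 := by exact_mod_cast (hr0 s).ne'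
    push_cast at h1
    unfold rd
    rw [hr, h1]
    field_simp
  obtain ⟨b, hb⟩ := exists_nat_ge (∑ s, |rd p s * m s| / Real.log p)
  have hπ : WeilTuple p (2 * b) (fun i => (p : K i) ^ b) := by
    intro i
    refine ⟨(isIntegral_natCast p).pow b, fun φ => ?_⟩
    rw [map_pow, map_natCast, norm_pow, Complex.norm_natCast]
    ring
  have hcrd : ∀ s : Ix p K, crd p (2 * b) (fun i => (p : K i) ^ b) s = 0 := by
    intro s
    unfold crd ldev
    rw [map_pow, map_natCast, norm_pow, Real.log_pow, log_norm_p]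
    push_cast
    ring
  have hw : WeilTuple p (2 * b) (act p m (fun i => (p : K i) ^ b)) := by
    rw [weil_act_iff hπ]
    intro s
    rw [hcrd, zero_sub, abs_neg]
    have h1 : |rd p s * m s| / Real.log p ≤ b :=
      (Finset.single_le_sum (f := fun s => |rd p s * m s| / Real.log p)
        (fun _ _ => by positivity) (Finset.mem_univ s)).trans hb
    rw [div_le_iff₀ hlog] at h1
    have h2 : 0 ≤ (b : ℝ) * Real.log p := by positivity
    push_cast
    linarith
  have hc : (2 * N * Real.log p : ℝ) ≠ 0 := by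
    have : (0 : ℝ) < N := by exact_mod_cast hN
    positivity
  refine ⟨2 * b, _, 2 * N * Real.log p, hc, hw, fun e x => ?_⟩
  rw [Dv_eq_sum hw]
  have h3 : ∀ s, crd p (2 * b) (act p m (fun i => (p : K i) ^ b)) s =
      (2 * N * Real.log p) * n s.1 (HP.emb p s.2) := by
    intro s
    rw [crd_act _ m (weil_ne hπ) s, hcrd, hcoord]
    ring
  simp only [h3]
  rw [sum_SG p (fun s => (2 * N * Real.log p) * (n s.1 (HP.emb p s.2) : ℝ)),
    HP.sum_sg p (fun y => (n x.1 y : ℝ)) (fun y => by rw [hn1]; push_cast; rfl)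
      (fun y y' hy => by rw [hn2 _ y y' hy]) (e.comp x.2), Finset.mul_sum]
  refine Finset.sum_congr rfl fun s _ => ?_
  ring

/-- the places are the embeddings if `p` splits completely -/
theorem split_place {K : Type} [Field K] [NumberField K] (p : ℕ) [Fact p.Prime]
    (h : ∀ y : K →+* PadicAlgCl p, ∃ x : K →+* ℚ_[p], y = (algebraMap ℚ_[p] (PadicAlgCl p)).comp x)
    (y y' : K →+* PadicAlgCl p) (hy : primeOf p y = primeOf p y') : y = y' := by
  by_contra hne
  obtain ⟨x, hx⟩ := h y
  obtain ⟨γ, hγ0, hγ⟩ := principal_pow (primeOf p y) (primeOf_ne_bot p y)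
  have h1 := norm_gen_eq_one p x y hx _ γ (ZO.classNumber_pos (K := K)) hγ0 hγ y' (Ne.symm hne)
  have h2 : γ ∈ primeOf p y := by
    have h4 : γ ∈ primeOf p y ^ classNumber K := by
      rw [hγ]
      exact Ideal.mem_span_singleton_self γ
    exact Ideal.pow_le_self (ZO.classNumber_pos (K := K)).ne' h4
  rw [hy, mem_primeOf, h1] at h2
  exact lt_irrefl _ h2

/-- two places differ by an automorphism -/
theorem exists_aut {Ω : Type*} [Field Ω] [CharZero Ω] [Algebra ℚ A] [IsAlgClosed A]
    [Algebra.IsAlgebraic ℚ A] (e₀ e : A →+* Ω) : ∃ g : A ≃+* A, e = e₀.comp (g : A →+* A) := by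
  have hex : ∀ z : A, ∃ w : A, e₀ w = e z := by
    intro z
    have hz : IsIntegral ℚ z := Algebra.IsIntegral.isIntegral z
    have h1 : Polynomial.aeval (e z) (minpoly ℚ z) = 0 := by
      have h2 := Polynomial.aeval_algHom_apply e.toRatAlgHom z (minpoly ℚ z)
      rw [minpoly.aeval, map_zero] at h2
      exact h2
    have h2 : (minpoly ℚ z).map (algebraMap ℚ Ω) =
        (((minpoly ℚ z).aroots A).map (fun r => Polynomial.X - Polynomial.C (e₀ r))).prod := by
      have h3 : ((minpoly ℚ z).map (algebraMap ℚ A)) =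
          (((minpoly ℚ z).aroots A).map (fun r => Polynomial.X - Polynomial.C r)).prod :=
        (IsAlgClosed.splits _).eq_prod_roots_of_monic ((minpoly.monic hz).map _)
      have h4 := congrArg (Polynomial.map e₀) h3
      rw [Polynomial.map_map, Polynomial.map_multiset_prod, Multiset.map_map] at h4
      have h5 : e₀.comp (algebraMap ℚ A) = algebraMap ℚ Ω := Subsingleton.elim _ _
      rw [h5] at h4
      rw [h4]
      congr 1
      refine Multiset.map_congr rfl fun r _ => ?_
      simp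
    rw [Polynomial.aeval_def, ← Polynomial.eval_map, h2, Polynomial.eval_multiset_prod,
      Multiset.map_map, Multiset.prod_eq_zero_iff, Multiset.mem_map] at h1
    obtain ⟨w, _, hw⟩ := h1
    refine ⟨w, ?_⟩
    simp only [Function.comp, Polynomial.eval_sub, Polynomial.eval_X, Polynomial.eval_C] at hw
    exact (sub_eq_zero.1 hw).symm
  choose w hw using hex
  let g : A →+* A :=
    { toFun := w
      map_one' := e₀.injective (by rw [hw, map_one, map_one])
      map_zero' := e₀.injective (by rw [hw, map_zero, map_zero])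
      map_mul' := fun x y => e₀.injective (by rw [hw, map_mul, map_mul, hw, hw])
      map_add' := fun x y => e₀.injective (by rw [hw, map_add, map_add, hw, hw]) }
  have hbij : Function.Bijective g :=
    Algebra.IsAlgebraic.algHom_bijective (g.toRatAlgHom : A →ₐ[ℚ] A)
  refine ⟨RingEquiv.ofBijective g hbij, ?_⟩
  ext z
  exact (hw z).symm

/-- a vector of a separating space which separates -/
theorem exists_generic {J : Type} [Finite J] (W : Submodule ℚ (J → ℚ))
    (h : ∀ x y, (∀ f ∈ W, f x = f y) → x = y) :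
    ∃ f ∈ W, Function.Injective f := by
  classical
  let P : J × J → Submodule ℚ W := fun xy =>
    if xy.1 = xy.2 then ⊥ else
      LinearMap.ker (((LinearMap.proj xy.1 : (J → ℚ) →ₗ[ℚ] ℚ) - LinearMap.proj xy.2).comp W.subtype)
  by_contra hcon
  push Not at hcon
  have hcover : ⋃ xy, (P xy : Set W) = Set.univ := by
    rw [Set.eq_univ_iff_forall]
    intro f
    have h1 := hcon f.1 f.2
    unfold Function.Injective at h1
    push Not at h1
    obtain ⟨x, y, hxy, hne⟩ := h1
    rw [Set.mem_iUnion]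
    refine ⟨(x, y), ?_⟩
    simp only [P, if_neg hne, SetLike.mem_coe, LinearMap.mem_ker, LinearMap.comp_apply,
      LinearMap.sub_apply, Submodule.subtype_apply, LinearMap.proj_apply]
    exact sub_eq_zero.2 hxy
  obtain ⟨⟨x, y⟩, hxy⟩ := Subspace.exists_eq_top_of_iUnion_eq_univ hcover
  by_cases hne : x = y
  · simp only [P, hne, if_true] at hxy
    -- `W` is zero
    have hW : ∀ f ∈ W, f = 0 := by
      intro f hf
      have h1 : (⟨f, hf⟩ : W) ∈ (⊤ : Submodule ℚ W) := trivial
      rw [← hxy, Submodule.mem_bot] at h1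
      exact congrArg Subtype.val h1
    have hsub : ∀ a b : J, a = b := fun a b => h a b fun f hf => by rw [hW f hf]; rfl
    obtain ⟨a, b, -, hab⟩ : ∃ a b : J, (0 : J → ℚ) a = (0 : J → ℚ) b ∧ a ≠ b := by
      have h2 := hcon 0 W.zero_mem
      unfold Function.Injective at h2
      push Not at h2
      exact h2
    exact hab (hsub a b)
  · apply hne
    apply h x y
    intro f hf
    have h1 : (⟨f, hf⟩ : W) ∈ P (x, y) := by
      rw [hxy]
      trivial
    simp only [P, if_neg hne, LinearMap.mem_ker, LinearMap.comp_apply,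
      LinearMap.sub_apply, Submodule.subtype_apply, LinearMap.proj_apply] at h1
    exact sub_eq_zero.1 h1

/-- (2) implies (3) -/
theorem crit_of_good [Algebra ℚ A] [IsAlgClosed A] [Algebra.IsAlgebraic ℚ A]
    (p : ℕ) [Fact p.Prime]
    (hsplit : ∀ i, ∀ y : K i →+* PadicAlgCl p, ∃ x : K i →+* ℚ_[p],
      y = (algebraMap ℚ_[p] (PadicAlgCl p)).comp x) (hgood : GoodAt p K) : Crit3 K A := by
  classical
  intro W hW hsep f₀ hf₀
  by_contra hf₀W
  let e₀ : A →+* PadicAlgCl p := (IsAlgClosed.lift : A →ₐ[ℚ] PadicAlgCl p).toRingHom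
  obtain ⟨w, hwW, hw⟩ := exists_generic W hsep
  obtain ⟨N, hN, n₀, hn₀⟩ := exists_denominator w
  have hN' : (N : ℚ) ≠ 0 := by exact_mod_cast hN.ne'
  have hn₀W : (fun x => (n₀ x : ℚ)) ∈ W := by
    have h1 : (fun x => (n₀ x : ℚ)) = (N : ℚ) • w := by
      funext x
      rw [hn₀]
      rfl
    rw [h1]
    exact W.smul_mem _ hwW
  have hn₀inj : Function.Injective n₀ := by
    intro x y hxy
    apply hw
    have h1 := hn₀ x
    rw [hxy, hn₀ y] at h1
    exact (mul_left_cancel₀ hN' h1).symm
  have hn₀odd : ∀ x, n₀ (cj x) = - n₀ x := by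
    intro x
    have h1 := hW.1 _ hn₀W x
    have h2 : ((n₀ (cj x) : ℤ) : ℚ) = - (n₀ x : ℚ) := h1
    exact_mod_cast h2
  choose σ hσ using fun (i : I) (y : K i →+* PadicAlgCl p) => exists_factor' e₀ y
  have hσ' : ∀ (i : I) (τ : K i →+* A), σ i (e₀.comp τ) = τ := by
    intro i τ
    ext z
    exact e₀.injective (hσ i (e₀.comp τ) z)
  let n : ∀ i, (K i →+* PadicAlgCl p) → ℤ := fun i y => n₀ ⟨i, σ i y⟩
  have hn1 : ∀ i y, n i (bar y) = - n i y := by
    intro i y
    have h1 : σ i (bar y) = bar (σ i y) := by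
      ext z
      apply e₀.injective
      rw [hσ, bar_apply, bar_apply, hσ]
    simp only [n]
    rw [h1]
    exact hn₀odd ⟨i, σ i y⟩
  have hn2 : ∀ i y y', primeOf p y = primeOf p y' → n i y = n i y' := by
    intro i y y' h
    rw [split_place p (hsplit i) y y' h]
  obtain ⟨a, π, c, hc0, hπ, hDv⟩ := realize (A := A) p n hn1 hn2
  have hDv' : ∀ (g : A ≃+* A) (x : Σ i, K i →+* A),
      Dv p a π (e₀.comp (g : A →+* A)) x = c * n₀ (gact g x) := by
    intro g x
    rw [hDv]
    have h1 : σ x.1 ((e₀.comp (g : A →+* A)).comp x.2) = (g : A →+* A).comp x.2 :=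
      hσ' x.1 ((g : A →+* A).comp x.2)
    simp only [n]
    rw [h1]
    rfl
  have hDv0 : ∀ x : Σ i, K i →+* A, Dv p a π e₀ x = c * n₀ x := fun x =>
    hDv' (RingEquiv.refl A) x
  have hseppi : Separated π := by
    apply separated_of_Dv (A := A) (p := p) (a := a)
    intro x y h
    have h1 := h e₀
    rw [hDv0, hDv0] at h1
    have h2 := mul_left_cancel₀ hc0 h1
    exact hn₀inj (by exact_mod_cast h2)
  have hno := norel_of_generated (A := A) hπ hseppi (hgood a π hπ hseppi)
  -- an odd function orthogonal to `W`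
  obtain ⟨φ, hφ1, hφ2⟩ := Submodule.exists_le_ker_of_notMem hf₀W
  let b : (Σ i, K i →+* A) → ℚ := fun x => φ (Pi.single x 1)
  have hφb : ∀ f, φ f = ∑ x, b x * f x := by
    intro f
    have h1 : f = ∑ x, f x • (Pi.single x (1 : ℚ) : (Σ i, K i →+* A) → ℚ) := by
      funext k
      rw [Finset.sum_apply, Finset.sum_eq_single k]
      · simp
      · intro b _ hb
        simp [Pi.single_eq_of_ne (Ne.symm hb)]
      · intro h
        exact absurd (Finset.mem_univ _) h
    conv_lhs => rw [h1]
    rw [map_sum]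
    refine Finset.sum_congr rfl fun h _ => ?_
    rw [map_smul, smul_eq_mul, mul_comm]
  have hodd : ∀ f : (Σ i, K i →+* A) → ℚ, (∀ x, f (cj x) = - f x) →
      ∑ x, (b x - b (cj x)) * f x = 2 * φ f := by
    intro f hf
    have h1 : ∑ x, b (cj x) * f x = - ∑ x, b x * f x := by
      rw [← Finset.sum_neg_distrib]
      refine Finset.sum_bij' (fun σ _ => cj σ) (fun σ _ => cj σ) ?_ ?_ ?_ ?_ ?_
      · intro _ _; exact Finset.mem_univ _
      · intro _ _; exact Finset.mem_univ _
      · intro σ _; exact cj_cj' σ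
      · intro σ _; exact cj_cj' σ
      · intro j _
        rw [hf]
        ring
    simp only [sub_mul, Finset.sum_sub_distrib]
    rw [h1, hφb]
    ring
  have h1 := hno (fun x => ((b x - b (cj x) : ℚ) : ℝ)) (by
    intro x
    beta_reduce
    rw [cj_cj']
    push_cast
    ring) (by
    intro e
    obtain ⟨g, rfl⟩ := exists_aut e₀ e
    have h2 := hodd (fun x => (n₀ (gact g x) : ℚ)) (hW.1 _ (hW.2 g _ hn₀W))
    have h3 : φ (fun x => (n₀ (gact g x) : ℚ)) = 0 := hφ2 (hW.2 g _ hn₀W)
    rw [h3, mul_zero] at h2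
    have h4 := congrArg (fun q : ℚ => c * (q : ℝ)) h2
    simp only [Rat.cast_sum, Rat.cast_mul, Rat.cast_intCast, Rat.cast_zero, mul_zero,
      Finset.mul_sum] at h4
    rw [← h4]
    refine Finset.sum_congr rfl fun x _ => ?_
    rw [hDv']
    ring)
  apply hφ1
  have h2 := hodd f₀ hf₀
  have h3 : ∀ x, b x - b (cj x) = 0 := by
    intro x
    have h4 := congrFun h1 x
    simp only [Pi.zero_apply] at h4
    exact_mod_cast h4
  simp only [h3, zero_mul, Finset.sum_const_zero] at h2
  linarith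

/-- (1) implies (2): there is a prime that splits completely in all `K i` -/
theorem exists_split (K : I → Type) [∀ i, Field (K i)] [∀ i, NumberField (K i)] :
    ∃ (p : ℕ) (_ : Fact p.Prime), ∀ i, ∀ y : K i →+* PadicAlgCl p, ∃ x : K i →+* ℚ_[p],
      y = (algebraMap ℚ_[p] (PadicAlgCl p)).comp x := by
  obtain ⟨L, _, hAL, hfin, _, hlift⟩ := Exact.exists_common' K
  have hc : CharZero L := algebraRat.charZero L
  have h0 : hAL = DivisionRing.toRatAlgebra := Subsingleton.elim _ _
  subst h0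
  have hnf : NumberField L := ⟨⟩
  obtain ⟨p, hp, ⟨ψ⟩⟩ := Pool.Agent.Y742.GG.exists_emb_fg L (by
    let pb := Field.powerBasisOfFiniteOfSeparable ℚ L
    refine ⟨{pb.gen}, ?_⟩
    have h1 := pb.adjoin_gen_eq_top
    rw [Finset.coe_singleton]
    exact (IntermediateField.adjoin_eq_top_of_algebra (F := ℚ) (E := L) _ h1))
  refine ⟨p, hp, fun i y => ?_⟩
  let e : L →ₐ[ℚ] PadicAlgCl p := ((algebraMap ℚ_[p] (PadicAlgCl p)).comp ψ).toRatAlgHom
  obtain ⟨σ', hσ'⟩ := hlift e i y.toRatAlgHom
  refine ⟨ψ.comp σ'.toRingHom, ?_⟩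
  ext z
  exact (congrArg (fun f : K i →ₐ[ℚ] PadicAlgCl p => f z) hσ').symm

end Pool.Agent.Helper43x.UC
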