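import Mathlib
import Pool.Agent.Helper43x.ZO.Lin

/-!
# Stable spaces of odd functions on finite sets with a group action
-/

set_option autoImplicit false

namespace Pool.Agent.Helper43x.UC

section general

variable {X : Type} [Fintype X]

theorem dot_self_eq_zero (f : X → ℚ) (h : ∑ z, f z * f z = 0) : f = 0 := by
  rw [Finset.sum_eq_zero_iff_of_nonneg (fun j _ => mul_self_nonneg _)] at h
  funext j
  exact mul_self_eq_zero.1 (h j (Finset.mem_univ j))

/-- orthogonal decomposition -/
theorem decomp (V : Submodule ℚ (X → ℚ)) (f : X → ℚ) :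
    ∃ v ∈ V, ∀ w ∈ V, ∑ z, (f z - v z) * w z = 0 := by
  classical
  let B : (X → ℚ) →ₗ[ℚ] (X → ℚ) →ₗ[ℚ] ℚ := dotProductBilin ℚ ℚ
  have hB : ∀ f g : X → ℚ, B f g = ∑ z, f z * g z := fun f g => rfl
  let R : V →ₗ[ℚ] Module.Dual ℚ V := LinearMap.mk₂ ℚ (fun v w => B v.1 w.1)
    (fun a b c => by simp) (fun a b c => by simp) (fun a b c => by simp) (fun a b c => by simp)
  have hRapp : ∀ v w : V, R v w = ∑ z, v.1 z * w.1 z := fun v w => rfl
  have hinj : Function.Injective R := by
    rw [injective_iff_map_eq_zero]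
    intro v hv
    have h1 : R v v = 0 := by rw [hv]; rfl
    rw [hRapp] at h1
    exact Subtype.ext (dot_self_eq_zero v.1 h1)
  have hsurj : Function.Surjective R := by
    have h1 : Module.finrank ℚ V = Module.finrank ℚ (Module.Dual ℚ V) :=
      (Subspace.dual_finrank_eq (K := ℚ) (V := V)).symm
    exact (LinearMap.injective_iff_surjective_of_finrank_eq_finrank h1).1 hinj
  obtain ⟨v, hv⟩ := hsurj ((B f).comp V.subtype)
  refine ⟨v.1, v.2, fun w hw => ?_⟩
  have h1 := congrArg (fun φ : Module.Dual ℚ V => φ ⟨w, hw⟩) hv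
  have h2 : ∑ z, v.1 z * w z = ∑ z, f z * w z := h1
  simp only [sub_mul, Finset.sum_sub_distrib]
  rw [h2, sub_self]

/-- the odd functions -/
def oddSub (c : X → X) : Submodule ℚ (X → ℚ) where
  carrier := {f | ∀ x, f (c x) = - f x}
  add_mem' := by
    intro f g hf hg x
    rw [Pi.add_apply, Pi.add_apply, hf, hg]
    ring
  zero_mem' := by
    intro x
    simp
  smul_mem' := by
    intro a f hf x
    rw [Pi.smul_apply, Pi.smul_apply, hf, smul_neg]

omit [Fintype X] in
theorem mem_oddSub (c : X → X) (f : X → ℚ) : f ∈ oddSub c ↔ ∀ x, f (c x) = - f x := Iff.rfl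

variable (c : X → X) (hc : ∀ x, c (c x) = x) (hc' : ∀ x, c x ≠ x)

include hc hc' in
/-- its dimension -/
theorem finrank_oddSub : Module.finrank ℚ (oddSub c) = Fintype.card (ZO.Half c) := by
  classical
  let φ : oddSub c →ₗ[ℚ] (ZO.Half c → ℚ) :=
    { toFun := fun f h => f.1 h.1
      map_add' := fun f g => rfl
      map_smul' := fun a f => rfl }
  have hinj : Function.Injective φ := by
    rw [injective_iff_map_eq_zero]
    intro f hf
    apply Subtype.ext
    funext x
    by_cases hx : WellOrderingRel x (c x)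
    · exact congrFun hf ⟨x, hx⟩
    · have h1 : f.1 (c x) = 0 := congrFun hf ⟨c x, (ZO.not_rel_iff c hc hc' x).1 hx⟩
      rw [f.2] at h1
      exact neg_eq_zero.1 h1
  have hsurj : Function.Surjective φ := by
    intro b
    let a : X → ℚ := fun j => if hj : WellOrderingRel j (c j) then b ⟨j, hj⟩ else
      - b ⟨c j, (ZO.not_rel_iff c hc hc' j).1 hj⟩
    have ha : ∀ j, a (c j) = - a j := by
      intro j
      by_cases hj : WellOrderingRel j (c j)
      · have h1 : ¬ WellOrderingRel (c j) (c (c j)) := by
          rw [hc]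
          exact asymm_of WellOrderingRel hj
        simp only [a]
        rw [dif_neg h1, dif_pos hj]
        congr 2
        exact Subtype.ext (hc j)
      · have h1 := (ZO.not_rel_iff c hc hc' j).1 hj
        simp only [a]
        rw [dif_pos h1, dif_neg hj, neg_neg]
    refine ⟨⟨a, ha⟩, ?_⟩
    funext h
    exact dif_pos h.2
  rw [(LinearEquiv.ofBijective φ ⟨hinj, hsurj⟩).finrank_eq, Module.finrank_fintype_fun_eq_card]

open Classical in
/-- the odd function attached to a point -/
noncomputable def dd (c : X → X) (x : X) : X → ℚ := fun z =>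
  (if z = x then 1 else 0) - (if z = c x then 1 else 0)

include hc in
omit [Fintype X] in
theorem dd_odd (x : X) : dd c x ∈ oddSub c := by
  classical
  intro z
  have h1 : c z = x ↔ z = c x := ⟨fun h => by rw [← h, hc], fun h => by rw [h, hc]⟩
  have h2 : c z = c x ↔ z = x := ⟨fun h => by rw [← hc z, h, hc], fun h => by rw [h]⟩
  unfold dd
  simp only [h1, h2]
  ring

include hc' in
omit [Fintype X] in
theorem dd_self (x : X) : dd c x x = 1 := by
  classical
  unfold dd
  rw [if_pos rfl, if_neg (hc' x).symm, sub_zero]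

omit [Fintype X] in
theorem dd_ne (x y : X) (h : y ≠ x) : dd c x y ≤ 0 := by
  classical
  unfold dd
  rw [if_neg h]
  split_ifs <;> norm_num

include hc' in
omit [Fintype X] in
theorem dd_inj (x y : X) (h : dd c x = dd c y) : x = y := by
  by_contra hne
  have h1 := congrFun h x
  rw [dd_self c hc'] at h1
  have h2 := dd_ne c y x hne
  rw [← h1] at h2
  norm_num at h2

include hc in
omit [Fintype X] in
theorem dd_symm (x y : X) : dd c x y = dd c y x := by
  classical
  unfold dd
  have h1 : (y = x) ↔ (x = y) := eq_comm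
  have h2 : (y = c x) ↔ (x = c y) := ⟨fun h => by rw [h, hc], fun h => by rw [h, hc]⟩
  simp only [h1, h2]

theorem dd_dot (x : X) (f : X → ℚ) (hf : ∀ x, f (c x) = - f x) :
    ∑ z, dd c x z * f z = 2 * f x := by
  classical
  unfold dd
  simp only [sub_mul, Finset.sum_sub_distrib, ite_mul, one_mul, zero_mul, Finset.sum_ite_eq',
    Finset.mem_univ, if_true]
  rw [hf]
  ring

end general

section action

variable {G X : Type} [Group G] [MulAction G X] [Fintype X] (c : X → X)
  (hc : ∀ x, c (c x) = x) (hc' : ∀ x, c x ≠ x) (hcg : ∀ (g : G) x, c (g • x) = g • c x)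

/-- stable spaces of odd functions -/
structure OS (G : Type) {X : Type} [Group G] [MulAction G X] (c : X → X)
    (W : Submodule ℚ (X → ℚ)) : Prop where
  odd : ∀ f ∈ W, ∀ x, f (c x) = - f x
  stab : ∀ g : G, ∀ f ∈ W, (fun x => f (g • x)) ∈ W

/-- the orthogonal space in the odd functions -/
def perp (c : X → X) (W : Submodule ℚ (X → ℚ)) : Submodule ℚ (X → ℚ) where
  carrier := {f | (∀ x, f (c x) = - f x) ∧ ∀ w ∈ W, ∑ z, f z * w z = 0}
  add_mem' := by
    rintro f g ⟨hf, hf'⟩ ⟨hg, hg'⟩
    refine ⟨fun x => ?_, fun w hw => ?_⟩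
    · rw [Pi.add_apply, Pi.add_apply, hf, hg]
      ring
    · simp only [Pi.add_apply, add_mul, Finset.sum_add_distrib, hf' w hw, hg' w hw, add_zero]
  zero_mem' := ⟨fun x => by simp, fun w hw => by simp⟩
  smul_mem' := by
    rintro a f ⟨hf, hf'⟩
    refine ⟨fun x => ?_, fun w hw => ?_⟩
    · rw [Pi.smul_apply, Pi.smul_apply, hf, smul_neg]
    · simp only [Pi.smul_apply, smul_eq_mul, mul_assoc]
      rw [← Finset.mul_sum, hf' w hw, mul_zero]

theorem mem_perp (W : Submodule ℚ (X → ℚ)) (f : X → ℚ) :
    f ∈ perp c W ↔ (∀ x, f (c x) = - f x) ∧ ∀ w ∈ W, ∑ z, f z * w z = 0 := Iff.rfl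

include hcg in
theorem perp_OS {W : Submodule ℚ (X → ℚ)} (hW : OS G c W) : OS G c (perp c W) := by
  refine ⟨fun f hf => hf.1, fun g f hf => ⟨fun x => ?_, fun w hw => ?_⟩⟩
  · beta_reduce
    rw [← hcg, hf.1]
  · have h1 := hf.2 _ (hW.stab g⁻¹ w hw)
    have h2 := Equiv.sum_comp (MulAction.toPerm g) (fun z => f z * w (g⁻¹ • z))
    beta_reduce at h1
    rw [h1] at h2
    rw [← h2]
    refine Finset.sum_congr rfl fun z _ => ?_
    simp

theorem mem_of_perp_perp {W : Submodule ℚ (X → ℚ)} (hW : OS G c W) (f : X → ℚ)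
    (hf : f ∈ perp c (perp c W)) : f ∈ W := by
  obtain ⟨v, hv, hv'⟩ := decomp W f
  have h1 : (fun z => f z - v z) ∈ perp c W :=
    ⟨fun x => by beta_reduce; rw [hf.1, hW.odd v hv]; ring, hv'⟩
  have h2 := hf.2 _ h1
  have h3 : ∑ z, (f z - v z) * (f z - v z) = 0 := by
    have h4 := hv' v hv
    have h5 : ∑ z, (f z - v z) * (f z - v z) =
        ∑ z, f z * (f z - v z) - ∑ z, (f z - v z) * v z := by
      rw [← Finset.sum_sub_distrib]
      exact Finset.sum_congr rfl fun z _ => by ring
    rw [h5, h2, h4, sub_zero]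
  have h4 := dot_self_eq_zero _ h3
  have h5 : f = v := by
    funext z
    exact sub_eq_zero.1 (congrFun h4 z)
  rw [h5]
  exact hv

/-- every separating stable space of odd functions contains all odd functions -/
def C3 (G : Type) {X : Type} [Group G] [MulAction G X] (c : X → X) : Prop :=
  ∀ W : Submodule ℚ (X → ℚ), OS G c W → (∀ x y, (∀ f ∈ W, f x = f y) → x = y) →
    ∀ f, (∀ x, f (c x) = - f x) → f ∈ W

/-- the dual form -/
def C3' (G : Type) {X : Type} [Group G] [MulAction G X] (c : X → X) : Prop :=
  ∀ V : Submodule ℚ (X → ℚ), OS G c V → V ≠ ⊥ → ∃ x y, x ≠ y ∧ dd c x - dd c y ∈ V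

include hc hcg in
theorem C3_iff : C3 G c ↔ C3' G c := by
  constructor
  · intro h V hV hV0
    by_contra hcon
    push Not at hcon
    apply hV0
    rw [eq_bot_iff]
    intro v hv
    have hW := perp_OS c hcg hV
    have h1 := h (perp c V) hW (by
      intro x y hxy
      by_contra hne
      apply hcon x y hne
      apply mem_of_perp_perp c hV
      refine ⟨(oddSub c).sub_mem (dd_odd c hc x) (dd_odd c hc y), fun w hw => ?_⟩
      simp only [Pi.sub_apply, sub_mul, Finset.sum_sub_distrib]
      rw [dd_dot c x w hw.1, dd_dot c y w hw.1, hxy w hw, sub_self]) v (hV.odd v hv)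
    exact (Submodule.mem_bot ℚ).2 (dot_self_eq_zero v (h1.2 v hv))
  · intro h W hW hsep f hf
    apply mem_of_perp_perp c hW
    have h1 : perp c W = ⊥ := by
      by_contra hne
      obtain ⟨x, y, hxy, hmem⟩ := h _ (perp_OS c hcg hW) hne
      apply hxy
      apply hsep
      intro w hw
      have h2 := hmem.2 w hw
      simp only [Pi.sub_apply, sub_mul, Finset.sum_sub_distrib] at h2
      rw [dd_dot c x w (hW.odd w hw), dd_dot c y w (hW.odd w hw)] at h2
      linarith
    rw [h1]
    refine ⟨hf, fun w hw => ?_⟩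
    rw [(Submodule.mem_bot ℚ).1 hw]
    simp

include hc hc' hcg in
/-- the stable spaces of odd functions in the transitive case -/
theorem block_lemma (htrans : ∀ x y : X, ∃ g : G, g • x = y) (hC : C3' G c)
    (W : Submodule ℚ (X → ℚ)) (hW : OS G c W) (hW0 : W ≠ ⊥) (hW1 : ¬ ∀ f ∈ oddSub c, f ∈ W) :
    ∃ S : X → X, (∀ x, S x ≠ x ∧ S x ≠ c x) ∧ (∀ (g : G) x, S (g • x) = g • S x) ∧
      ∀ f, f ∈ W ↔ (∀ x, f (c x) = - f x) ∧ ∀ x, f (S x) = f x := by
  classical
  -- the bound for the dimension
  have key : ∀ W : Submodule ℚ (X → ℚ), OS G c W → W ≠ ⊥ → perp c W ≠ ⊥ →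
      ∃ (r : Setoid X), (∀ x y, r x y ↔ ∀ f ∈ W, f x = f y) ∧
        2 * Module.finrank ℚ W ≤ Nat.card (Quotient r) ∧
        (∀ x, ∃ y, y ≠ x ∧ r x y) ∧ (∀ x, ¬ r x (c x)) ∧
        (∀ W' : Submodule ℚ (X → ℚ), (∀ f ∈ W', (∀ x, f (c x) = - f x) ∧
          ∀ x y, r x y → f x = f y) → 2 * Module.finrank ℚ W' ≤ Nat.card (Quotient r)) := by
    intro W hW hW0 hW1
    let r : Setoid X :=
      { r := fun x y => ∀ f ∈ W, f x = f y
        iseqv := ⟨fun x f _ => rfl, fun h f hf => (h f hf).symm,
          fun h h' f hf => (h f hf).trans (h' f hf)⟩ }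
    have hr : ∀ x y, r x y ↔ ∀ f ∈ W, f x = f y := fun x y => Iff.rfl
    have hnc : ∀ x, ¬ r x (c x) := by
      intro x hx
      apply hW0
      rw [eq_bot_iff]
      intro f hf
      rw [Submodule.mem_bot]
      funext y
      obtain ⟨g, rfl⟩ := htrans x y
      have h1 := (hr _ _).1 hx _ (hW.stab g f hf)
      rw [← hcg, hW.odd f hf] at h1
      have h2 : f (g • x) = 0 := by linarith
      exact h2
    have hcr : ∀ x y, r x y → r (c x) (c y) := by
      intro x y h f hf
      rw [hW.odd f hf, hW.odd f hf, h f hf]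
    let cQ : Quotient r → Quotient r := Quotient.map c hcr
    have hcQ : ∀ q, cQ (cQ q) = q := by
      intro q
      induction q using Quotient.inductionOn with
      | _ x =>
        change Quotient.mk r (c (c x)) = Quotient.mk r x
        rw [hc]
    have hcQ' : ∀ q, cQ q ≠ q := by
      intro q
      induction q using Quotient.inductionOn with
      | _ x =>
        intro h
        exact hnc x (r.symm (Quotient.exact h))
    have hbound : ∀ W' : Submodule ℚ (X → ℚ), (∀ f ∈ W', (∀ x, f (c x) = - f x) ∧
          ∀ x y, r x y → f x = f y) → 2 * Module.finrank ℚ W' ≤ Nat.card (Quotient r) := by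
      intro W' hW'
      let φ : W' →ₗ[ℚ] oddSub cQ :=
        { toFun := fun f => ⟨fun q => Quotient.lift f.1 (hW' f.1 f.2).2 q, by
            intro q
            induction q using Quotient.inductionOn with
            | _ x => exact (hW' f.1 f.2).1 x⟩
          map_add' := by
            intro f g
            apply Subtype.ext
            funext q
            induction q using Quotient.inductionOn with
            | _ x => rfl
          map_smul' := by
            intro a f
            apply Subtype.ext
            funext q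
            induction q using Quotient.inductionOn with
            | _ x => rfl }
      have hinj : Function.Injective φ := by
        rw [injective_iff_map_eq_zero]
        intro f hf
        apply Subtype.ext
        funext x
        have h1 := congrFun (congrArg Subtype.val hf) (Quotient.mk r x)
        exact h1
      have h1 := LinearMap.finrank_le_finrank_of_injective hinj
      rw [finrank_oddSub cQ hcQ hcQ', ZO.card_half cQ hcQ hcQ', ← Nat.card_eq_fintype_card] at h1
      omega
    refine ⟨r, hr, hbound W fun f hf => ⟨hW.odd f hf, fun x y h => h f hf⟩, ?_, hnc, hbound⟩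
    obtain ⟨x₀, y₀, hxy₀, hmem⟩ := hC _ (perp_OS c hcg hW) hW1
    have h0 : r x₀ y₀ := by
      intro w hw
      have h2 := hmem.2 w hw
      simp only [Pi.sub_apply, sub_mul, Finset.sum_sub_distrib] at h2
      rw [dd_dot c x₀ w (hW.odd w hw), dd_dot c y₀ w (hW.odd w hw)] at h2
      linarith
    intro x
    obtain ⟨g, rfl⟩ := htrans x₀ x
    refine ⟨g • y₀, fun h => hxy₀ (MulAction.injective g h).symm, fun f hf => ?_⟩
    exact h0 _ (hW.stab g f hf)
  have hp1 : perp c W ≠ ⊥ := by
    intro h
    apply hW1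
    intro f hf
    apply mem_of_perp_perp c hW
    rw [h]
    refine ⟨hf, fun w hw => ?_⟩
    rw [(Submodule.mem_bot ℚ).1 hw]
    simp
  have hp2 : perp c (perp c W) ≠ ⊥ := by
    intro h
    apply hW0
    rw [eq_bot_iff]
    intro w hw
    rw [← h]
    refine ⟨hW.odd w hw, fun v hv => ?_⟩
    have h1 := hv.2 w hw
    rw [← h1]
    exact Finset.sum_congr rfl fun z _ => mul_comm _ _
  obtain ⟨r, hr, hr1, hr2, hr3, hr4⟩ := key W hW hW0 hp1
  obtain ⟨r', hr', hr1', hr2', hr3', hr4'⟩ := key (perp c W) (perp_OS c hcg hW) hp1 hp2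
  have hcardge : ∀ (r : Setoid X), (∀ x, ∃ y, y ≠ x ∧ r x y) →
      2 * Nat.card (Quotient r) ≤ Fintype.card X ∧
      (2 * Nat.card (Quotient r) = Fintype.card X → ∀ x y z, y ≠ x → z ≠ x → r x y → r x z →
        y = z) := by
    intro r h2
    have h3 : Fintype.card X = ∑ q : Quotient r,
        (Finset.univ.filter fun x => Quotient.mk r x = q).card := by
      rw [← Finset.card_univ]
      exact Finset.card_eq_sum_card_fiberwise fun x _ => Finset.mem_coe.2 (Finset.mem_univ _)
    have h4 : ∀ q : Quotient r, 2 ≤ (Finset.univ.filter fun x => Quotient.mk r x = q).card := by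
      intro q
      induction q using Quotient.inductionOn with
      | _ x =>
        obtain ⟨y, hy, hxy⟩ := h2 x
        have h5 : ({x, y} : Finset X) ⊆ Finset.univ.filter
            fun z => Quotient.mk r z = Quotient.mk r x := by
          intro z hz
          rw [Finset.mem_insert, Finset.mem_singleton] at hz
          rw [Finset.mem_filter]
          refine ⟨Finset.mem_univ _, ?_⟩
          rcases hz with rfl | rfl
          · rfl
          · exact Quotient.sound (r.symm hxy)
        have h6 := Finset.card_le_card h5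
        rwa [Finset.card_pair hy.symm] at h6
    have h5 : 2 * Nat.card (Quotient r) = ∑ _q : Quotient r, 2 := by
      rw [Finset.sum_const, Finset.card_univ, Nat.card_eq_fintype_card, smul_eq_mul, mul_comm]
    constructor
    · rw [h3, h5]
      exact Finset.sum_le_sum fun q _ => h4 q
    · intro heq x y z hy hz hxy hxz
      by_contra hyz
      have h6 : ∑ _q : Quotient r, 2 < ∑ q : Quotient r,
          (Finset.univ.filter fun x => Quotient.mk r x = q).card := by
        refine Finset.sum_lt_sum (fun q _ => h4 q) ⟨Quotient.mk r x, Finset.mem_univ _, ?_⟩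
        have h7 : ({x, y, z} : Finset X) ⊆ Finset.univ.filter
            fun w => Quotient.mk r w = Quotient.mk r x := by
          intro w hw
          rw [Finset.mem_insert, Finset.mem_insert, Finset.mem_singleton] at hw
          rw [Finset.mem_filter]
          refine ⟨Finset.mem_univ _, ?_⟩
          rcases hw with rfl | rfl | rfl
          · rfl
          · exact Quotient.sound (r.symm hxy)
          · exact Quotient.sound (r.symm hxz)
        have h8 := Finset.card_le_card h7
        have h9 : ({x, y, z} : Finset X).card = 3 :=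
          Finset.card_eq_three.2 ⟨x, y, z, hy.symm, hz.symm, hyz, rfl⟩
        omega
      rw [← h5, ← h3] at h6
      omega
  have hsum : Module.finrank ℚ (oddSub c) ≤ Module.finrank ℚ W + Module.finrank ℚ (perp c W) := by
    have h1 : oddSub c ≤ W ⊔ perp c W := by
      intro f hf
      obtain ⟨v, hv, hv'⟩ := decomp W f
      refine Submodule.mem_sup.2 ⟨v, hv, fun z => f z - v z,
        ⟨fun x => by beta_reduce; rw [hf, hW.odd v hv]; ring, hv'⟩, ?_⟩
      funext z
      simp
    exact (Submodule.finrank_mono h1).trans (Submodule.finrank_add_le_finrank_add_finrank _ _)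
  rw [finrank_oddSub c hc hc'] at hsum
  have hcardX : Fintype.card X = 2 * Fintype.card (ZO.Half c) := by
    have h1 := ZO.sum_half c hc hc' (fun _ => (1 : ℕ))
    simp only [Finset.sum_const, Finset.card_univ, smul_eq_mul, mul_one] at h1
    omega
  obtain ⟨h1, h2⟩ := hcardge r hr2
  obtain ⟨h1', -⟩ := hcardge r' hr2'
  have heq : 2 * Nat.card (Quotient r) = Fintype.card X := by omega
  have hdim : Nat.card (Quotient r) = 2 * Module.finrank ℚ W := by omega
  choose S hS1 hS2 using hr2
  have huniq := h2 heq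
  refine ⟨S, fun x => ⟨hS1 x, fun h => hr3 x (h ▸ hS2 x)⟩, ?_, ?_⟩
  · intro g x
    refine huniq (g • x) _ _ (hS1 _) (fun h => hS1 x (MulAction.injective g h)) (hS2 _)
      ((hr _ _).2 fun f hf => (hr _ _).1 (hS2 x) _ (hW.stab g f hf))
  · let W' : Submodule ℚ (X → ℚ) :=
      { carrier := {f | (∀ x, f (c x) = - f x) ∧ ∀ x, f (S x) = f x}
        add_mem' := by
          rintro f g ⟨hf, hf'⟩ ⟨hg, hg'⟩
          refine ⟨fun x => ?_, fun x => ?_⟩
          · rw [Pi.add_apply, Pi.add_apply, hf, hg]
            ring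
          · rw [Pi.add_apply, Pi.add_apply, hf', hg']
        zero_mem' := ⟨fun x => by simp, fun x => by simp⟩
        smul_mem' := by
          rintro a f ⟨hf, hf'⟩
          refine ⟨fun x => ?_, fun x => ?_⟩
          · rw [Pi.smul_apply, Pi.smul_apply, hf, smul_neg]
          · rw [Pi.smul_apply, Pi.smul_apply, hf'] }
    have hle : W ≤ W' := fun f hf => ⟨hW.odd f hf, fun x => ((hr _ _).1 (hS2 x) f hf).symm⟩
    have hW' : 2 * Module.finrank ℚ W' ≤ Nat.card (Quotient r) := by
      apply hr4
      rintro f ⟨hf1, hf2⟩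
      refine ⟨hf1, fun x y hxy => ?_⟩
      by_cases hyx : y = x
      · rw [hyx]
      · rw [← huniq x (S x) y (hS1 x) hyx (hS2 x) hxy, hf2]
    have hWW : W = W' := Submodule.eq_of_le_of_finrank_le hle (by omega)
    intro f
    constructor
    · intro hf
      exact hle hf
    · intro hf
      rw [hWW]
      exact hf

end action

end Pool.Agent.Helper43x.UC
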