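import Mathlib
import Pool.Agent.Helper43x.UC.Abs

/-!
# Stable spaces of odd functions on disjoint unions of transitive sets
-/

set_option autoImplicit false

namespace Pool.Agent.Helper43x.UC

variable {G I : Type} [Group G] [Fintype I] {X : I → Type} [∀ i, MulAction G (X i)]
  [∀ i, Fintype (X i)]

/-- the involution on the union -/
def cS (c : ∀ i, X i → X i) (x : Σ i, X i) : Σ i, X i := ⟨x.1, c x.1 x.2⟩

open Classical in
/-- extension by zero -/
noncomputable def ext0 (i : I) : (X i → ℚ) →ₗ[ℚ] ((Σ i, X i) → ℚ) where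
  toFun v z := ∑ x : X i, if (⟨i, x⟩ : Σ i, X i) = z then v x else 0
  map_add' := by
    intro v w
    funext z
    rw [Pi.add_apply, ← Finset.sum_add_distrib]
    refine Finset.sum_congr rfl fun x _ => ?_
    split_ifs <;> simp
  map_smul' := by
    intro a v
    funext z
    rw [Pi.smul_apply, RingHom.id_apply, Finset.smul_sum]
    refine Finset.sum_congr rfl fun x _ => ?_
    split_ifs <;> simp

omit [Fintype I] in
theorem ext0_same (i : I) (v : X i → ℚ) (x : X i) : ext0 i v ⟨i, x⟩ = v x := by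
  classical
  change (∑ y : X i, if (⟨i, y⟩ : Σ i, X i) = ⟨i, x⟩ then v y else 0) = v x
  rw [Finset.sum_eq_single x]
  · rw [if_pos rfl]
  · intro y _ hy
    rw [if_neg]
    intro h
    exact hy (eq_of_heq (Sigma.mk.inj h).2)
  · intro h
    exact absurd (Finset.mem_univ _) h

omit [Fintype I] in
theorem ext0_ne (i : I) (v : X i → ℚ) (z : Σ i, X i) (hz : z.1 ≠ i) : ext0 i v z = 0 := by
  classical
  change (∑ y : X i, if (⟨i, y⟩ : Σ i, X i) = z then v y else 0) = 0
  refine Finset.sum_eq_zero fun y _ => ?_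
  rw [if_neg]
  rintro rfl
  exact hz rfl

omit [Fintype I] in
theorem ext0_smul (i : I) (v : X i → ℚ) (g : G) (z : Σ i, X i) :
    ext0 i v (g • z) = ext0 i (fun x => v (g • x)) z := by
  obtain ⟨l, y⟩ := z
  by_cases h : l = i
  · subst h
    change ext0 l v ⟨l, g • y⟩ = _
    rw [ext0_same, ext0_same]
  · rw [ext0_ne i _ _ (show (g • (⟨l, y⟩ : Σ i, X i)).1 ≠ i from h), ext0_ne i _ _ h]

variable (c : ∀ i, X i → X i)

omit [Fintype I] in
theorem ext0_c (i : I) (v : X i → ℚ) (z : Σ i, X i) :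
    ext0 i v (cS c z) = ext0 i (fun x => v (c i x)) z := by
  obtain ⟨l, y⟩ := z
  by_cases h : l = i
  · subst h
    change ext0 l v ⟨l, c l y⟩ = _
    rw [ext0_same, ext0_same]
  · rw [ext0_ne i _ _ (show (cS c (⟨l, y⟩ : Σ i, X i)).1 ≠ i from h), ext0_ne i _ _ h]

variable (hc : ∀ i x, c i (c i x) = x) (hc' : ∀ i x, c i x ≠ x)
  (hcg : ∀ i (g : G) x, c i (g • x) = g • c i x)

include hc in
omit [Fintype I] [∀ i, Fintype (X i)] in
theorem cS_cS (x : Σ i, X i) : cS c (cS c x) = x := by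
  obtain ⟨i, σ⟩ := x
  change (⟨i, c i (c i σ)⟩ : Σ i, X i) = ⟨i, σ⟩
  rw [hc]

include hc' in
omit [Fintype I] [∀ i, Fintype (X i)] in
theorem cS_ne (x : Σ i, X i) : cS c x ≠ x := by
  obtain ⟨i, σ⟩ := x
  intro h
  have h1 : (⟨i, c i σ⟩ : Σ i, X i) = ⟨i, σ⟩ := h
  exact hc' i σ (eq_of_heq (Sigma.mk.inj h1).2)

include hcg in
omit [Fintype I] [∀ i, Fintype (X i)] in
theorem cS_smul (g : G) (x : Σ i, X i) : cS c (g • x) = g • cS c x := by
  obtain ⟨i, σ⟩ := x
  change (⟨i, c i (g • σ)⟩ : Σ i, X i) = ⟨i, g • c i σ⟩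
  rw [hcg]

omit [∀ i, MulAction G (X i)] [∀ i, Fintype (X i)] [Fintype I] in
theorem dd_sigma (i : I) (a z : X i) : dd (cS c) ⟨i, a⟩ ⟨i, z⟩ = dd (c i) a z := by
  classical
  have h1 : ((⟨i, z⟩ : Σ i, X i) = ⟨i, a⟩) ↔ z = a :=
    ⟨fun h => eq_of_heq (Sigma.mk.inj h).2, fun h => by rw [h]⟩
  have h2 : ((⟨i, z⟩ : Σ i, X i) = cS c ⟨i, a⟩) ↔ z = c i a :=
    ⟨fun h => eq_of_heq (Sigma.mk.inj h).2, fun h => by rw [h]; rfl⟩
  unfold dd
  simp only [h1, h2]

include hc' in
/-- the dual criterion passes to the parts -/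
theorem part_of_C3' (hC : C3' G (cS c)) (i : I) : C3' G (c i) := by
  intro V hV hV0
  have hOS : OS G (cS c) (V.map (ext0 i)) := by
    constructor
    · rintro _ ⟨v, hv, rfl⟩ x
      rw [ext0_c]
      have h1 : (fun x => v (c i x)) = -v := funext fun x => hV.odd v hv x
      rw [h1, map_neg, Pi.neg_apply]
    · rintro g _ ⟨v, hv, rfl⟩
      refine ⟨fun x => v (g • x), hV.stab g v hv, ?_⟩
      funext z
      rw [ext0_smul]
  have hne : V.map (ext0 i) ≠ ⊥ := by
    intro h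
    apply hV0
    rw [eq_bot_iff]
    intro v hv
    rw [Submodule.mem_bot]
    have h1 : ext0 i v ∈ V.map (ext0 i) := ⟨v, hv, rfl⟩
    rw [h, Submodule.mem_bot] at h1
    funext x
    rw [← ext0_same i v x, h1]
    rfl
  obtain ⟨x, y, hxy, v, hv, hvxy⟩ := hC _ hOS hne
  have hx : x.1 = i := by
    by_contra h
    have h1 := congrFun hvxy x
    rw [ext0_ne i v x h, Pi.sub_apply, dd_self (cS c) (cS_ne c hc')] at h1
    have h2 := dd_ne (cS c) y x hxy
    linarith
  have hy : y.1 = i := by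
    by_contra h
    have h1 := congrFun hvxy y
    rw [ext0_ne i v y h, Pi.sub_apply, dd_self (cS c) (cS_ne c hc')] at h1
    have h2 := dd_ne (cS c) x y (Ne.symm hxy)
    linarith
  obtain ⟨k, a⟩ := x
  obtain ⟨l, b⟩ := y
  have hx' : k = i := hx
  have hy' : l = i := hy
  subst hx'
  subst hy'
  refine ⟨a, b, fun h => hxy (by rw [h]), ?_⟩
  have h1 : dd (c l) a - dd (c l) b = v := by
    funext z
    have h2 := congrFun hvxy ⟨l, z⟩
    rw [ext0_same, Pi.sub_apply, dd_sigma, dd_sigma] at h2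
    exact h2.symm
  rw [h1]
  exact hv

include hc hc' hcg in
/-- no common constituents -/
theorem b_of_C3' (γ : G) (hγ : ∀ i (x : X i), γ • x = c i x) (hC : C3' G (cS c)) (i j : I)
    (hij : i ≠ j) (σ₀ : X i) (τ₀ : X j) : ∃ g : G, g • σ₀ = c i σ₀ ∧ g • τ₀ = τ₀ := by
  classical
  by_contra hno
  push Not at hno
  let P : X i → X j → Prop := fun σ τ => ∃ g : G, g • σ₀ = σ ∧ g • τ₀ = τ
  have hPg : ∀ (g : G) σ τ, P (g • σ) (g • τ) ↔ P σ τ := by
    intro g σ τ
    constructor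
    · rintro ⟨h, h1, h2⟩
      refine ⟨g⁻¹ * h, ?_, ?_⟩
      · rw [mul_smul, h1, inv_smul_smul]
      · rw [mul_smul, h2, inv_smul_smul]
    · rintro ⟨h, h1, h2⟩
      exact ⟨g * h, by rw [mul_smul, h1], by rw [mul_smul, h2]⟩
  let k : X i → X j → ℚ := fun σ τ => (if P σ τ then 1 else 0) - (if P (c i σ) τ then 1 else 0)
  have hkc : ∀ σ τ, k (c i σ) τ = - k σ τ := by
    intro σ τ
    simp only [k]
    rw [hc]
    ring
  have hkg : ∀ (g : G) σ τ, k (g • σ) (g • τ) = k σ τ := by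
    intro g σ τ
    simp only [k]
    rw [hcg]
    simp only [hPg]
  have hkc' : ∀ σ τ, k σ (c j τ) = - k σ τ := by
    intro σ τ
    have h1 := hkg γ σ (c j τ)
    rw [hγ, hγ, hc] at h1
    rw [← h1, hkc]
  have hk0 : k σ₀ τ₀ = 1 := by
    have h1 : P σ₀ τ₀ := ⟨1, one_smul _ _, one_smul _ _⟩
    have h2 : ¬ P (c i σ₀) τ₀ := by
      rintro ⟨g, h3, h4⟩
      exact hno g h3 h4
    simp only [k]
    rw [if_pos h1, if_neg h2, sub_zero]
  let φT : (X j → ℚ) →ₗ[ℚ] (X i → ℚ) :=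
    { toFun := fun u σ => ∑ τ, k σ τ * u τ
      map_add' := by
        intro u v
        funext σ
        simp only [Pi.add_apply, mul_add, Finset.sum_add_distrib]
      map_smul' := by
        intro a u
        funext σ
        simp only [Pi.smul_apply, smul_eq_mul, RingHom.id_apply, Finset.mul_sum]
        exact Finset.sum_congr rfl fun τ _ => by ring }
  let φ : (X i → ℚ) →ₗ[ℚ] (X j → ℚ) :=
    { toFun := fun v τ => ∑ σ, k σ τ * v σ
      map_add' := by
        intro u v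
        funext σ
        simp only [Pi.add_apply, mul_add, Finset.sum_add_distrib]
      map_smul' := by
        intro a u
        funext σ
        simp only [Pi.smul_apply, smul_eq_mul, RingHom.id_apply, Finset.mul_sum]
        exact Finset.sum_congr rfl fun τ _ => by ring }
  have hφT : ∀ u σ, φT u σ = ∑ τ, k σ τ * u τ := fun u σ => rfl
  have hφ : ∀ v τ, φ v τ = ∑ σ, k σ τ * v σ := fun v τ => rfl
  have hφTg : ∀ (g : G) u σ, φT u (g • σ) = φT (fun τ => u (g • τ)) σ := by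
    intro g u σ
    rw [hφT, hφT, ← Equiv.sum_comp (MulAction.toPerm g) (fun τ => k (g • σ) τ * u τ)]
    refine Finset.sum_congr rfl fun τ _ => ?_
    rw [MulAction.toPerm_apply, hkg]
  have hφg : ∀ (g : G) v τ, φ v (g • τ) = φ (fun σ => v (g • σ)) τ := by
    intro g v τ
    rw [hφ, hφ, ← Equiv.sum_comp (MulAction.toPerm g) (fun σ => k σ (g • τ) * v σ)]
    refine Finset.sum_congr rfl fun σ _ => ?_
    rw [MulAction.toPerm_apply, hkg]
  have hφTc : ∀ u σ, φT u (c i σ) = - φT u σ := by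
    intro u σ
    rw [hφT, hφT, ← Finset.sum_neg_distrib]
    exact Finset.sum_congr rfl fun τ _ => by rw [hkc]; ring
  have hφc : ∀ v τ, φ v (c j τ) = - φ v τ := by
    intro v τ
    rw [hφ, hφ, ← Finset.sum_neg_distrib]
    exact Finset.sum_congr rfl fun σ _ => by rw [hkc']; ring
  let Θ : ℚ → (X j → ℚ) →ₗ[ℚ] ((Σ i, X i) → ℚ) := fun l =>
    (ext0 i).comp φT + l • (ext0 j).comp (φ.comp φT)
  have hΘ : ∀ l u z, Θ l u z = ext0 i (φT u) z + l * ext0 j (φ (φT u)) z := fun l u z => rfl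
  have hOS : ∀ l, OS G (cS c) (LinearMap.range (Θ l)) := by
    intro l
    constructor
    · rintro _ ⟨u, rfl⟩ x
      rw [hΘ, hΘ, ext0_c, ext0_c]
      have h1 : (fun x => φT u (c i x)) = - φT u := funext fun x => hφTc u x
      have h2 : (fun x => φ (φT u) (c j x)) = - φ (φT u) := funext fun x => hφc _ x
      rw [h1, h2, map_neg, map_neg, Pi.neg_apply, Pi.neg_apply]
      ring
    · rintro g _ ⟨u, rfl⟩
      refine ⟨fun τ => u (g • τ), ?_⟩
      funext z
      rw [hΘ, hΘ, ext0_smul, ext0_smul]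
      have h1 : (fun x => φT u (g • x)) = φT (fun τ => u (g • τ)) := funext fun x => hφTg g u x
      have h2 : (fun x => φ (φT u) (g • x)) = φ (φT (fun τ => u (g • τ))) := by
        rw [← h1]
        exact funext fun x => hφg g _ x
      rw [h1, h2]
  have hne : ∀ l, LinearMap.range (Θ l) ≠ ⊥ := by
    intro l h
    have h1 : Θ l (fun τ => if τ = τ₀ then 1 else 0) ∈ LinearMap.range (Θ l) := ⟨_, rfl⟩
    rw [h, Submodule.mem_bot] at h1
    have h2 := congrFun h1 ⟨i, σ₀⟩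
    rw [hΘ, ext0_same, ext0_ne j _ _ hij, hφT] at h2
    simp [hk0] at h2
  choose x y hxy hmem using fun l : ℚ => hC _ (hOS l) (hne l)
  obtain ⟨l, l', hll, heq⟩ := Finite.exists_ne_map_eq_of_infinite (fun l : ℚ => (x l, y l))
  have hx : x l = x l' := congrArg Prod.fst heq
  have hy : y l = y l' := congrArg Prod.snd heq
  obtain ⟨u, hu⟩ := hmem l
  obtain ⟨u', hu'⟩ := hmem l'
  rw [← hx, ← hy] at hu'
  have h1 : φT u = φT u' := by
    funext σ
    have h2 := congrFun (hu.trans hu'.symm) ⟨i, σ⟩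
    rw [hΘ, hΘ, ext0_same, ext0_same, ext0_ne j _ _ hij, ext0_ne j _ _ hij, mul_zero, mul_zero,
      add_zero, add_zero] at h2
    exact h2
  have h2 : φ (φT u) = 0 := by
    funext τ
    have h3 := congrFun (hu.trans hu'.symm) ⟨j, τ⟩
    rw [hΘ, hΘ, ext0_same, ext0_same, ext0_ne i _ _ hij.symm, ext0_ne i _ _ hij.symm, ← h1,
      zero_add, zero_add] at h3
    have h4 : (l - l') * φ (φT u) τ = 0 := by linarith
    exact (mul_eq_zero.1 h4).resolve_left (sub_ne_zero.2 hll)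
  have h3 : φT u = 0 := by
    apply dot_self_eq_zero
    have h4 : ∑ σ, φT u σ * φT u σ = ∑ τ, u τ * φ (φT u) τ := by
      have h5 : ∀ σ, φT u σ * φT u σ = ∑ τ, k σ τ * u τ * φT u σ := by
        intro σ
        have h6 : φT u σ * φT u σ = (∑ τ, k σ τ * u τ) * φT u σ := rfl
        rw [h6, Finset.sum_mul]
      simp only [h5]
      rw [Finset.sum_comm]
      refine Finset.sum_congr rfl fun τ _ => ?_
      rw [hφ, Finset.mul_sum]
      refine Finset.sum_congr rfl fun σ _ => ?_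
      ring
    rw [h4, h2]
    simp
  apply hxy l
  apply dd_inj (cS c) (cS_ne c hc')
  have h4 : Θ l u = 0 := by
    change ext0 i (φT u) + l • ext0 j (φ (φT u)) = 0
    rw [h2, h3, map_zero, map_zero, smul_zero, add_zero]
  rw [h4] at hu
  exact (sub_eq_zero.1 hu.symm)

include hc hc' hcg in
/-- the converse -/
theorem C3_of_parts
    (ha : ∀ i, ∀ W : Submodule ℚ (X i → ℚ), OS G (c i) W → W = ⊥ ∨ (∀ f ∈ oddSub (c i), f ∈ W) ∨
      ∃ S : X i → X i, (∀ x, S x ≠ x) ∧ ∀ f ∈ W, ∀ x, f (S x) = f x)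
    (hb : ∀ i j, i ≠ j → ∀ (σ : X i) (τ : X j), ∃ g : G, g • σ = c i σ ∧ g • τ = τ) :
    C3 G (cS c) := by
  classical
  intro W hW hsep f hf
  have hcS := cS_cS c hc
  have hcS' := cS_ne c hc'
  have hcgS := cS_smul c hcg
  choose v hvW hv using fun y : Σ i, X i => decomp W (dd (cS c) y)
  have hrep : ∀ y, ∀ w ∈ W, ∑ z, v y z * w z = 2 * w y := by
    intro y w hw
    have h1 := hv y w hw
    simp only [sub_mul, Finset.sum_sub_distrib] at h1
    rw [dd_dot (cS c) y w (hW.odd w hw)] at h1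
    linarith
  have huniq : ∀ y, ∀ u ∈ W, (∀ w ∈ W, ∑ z, u z * w z = 2 * w y) → u = v y := by
    intro y u hu h
    have h1 : ∑ z, (u z - v y z) * (u z - v y z) = 0 := by
      have h2 := h (u - v y) (W.sub_mem hu (hvW y))
      have h3 := hrep y (u - v y) (W.sub_mem hu (hvW y))
      simp only [Pi.sub_apply] at h2 h3
      simp only [sub_mul, Finset.sum_sub_distrib]
      rw [h2, h3, sub_self]
    have h2 := dot_self_eq_zero _ h1
    funext z
    exact sub_eq_zero.1 (congrFun h2 z)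
  have heqv : ∀ (g : G) y z, v (g • y) (g • z) = v y z := by
    intro g y z
    have h1 := huniq y (fun z => v (g • y) (g • z)) (hW.stab g _ (hvW _)) (by
      intro w hw
      have h2 := hrep (g • y) _ (hW.stab g⁻¹ w hw)
      beta_reduce at h2
      rw [inv_smul_smul] at h2
      rw [← h2, ← Equiv.sum_comp (MulAction.toPerm g) (fun z => v (g • y) z * w (g⁻¹ • z))]
      refine Finset.sum_congr rfl fun z _ => ?_
      simp)
    exact congrFun h1 z
  have hsupp : ∀ y z : Σ i, X i, z.1 ≠ y.1 → v y z = 0 := by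
    rintro ⟨i, τ⟩ ⟨j, σ⟩ hij
    obtain ⟨g, h1, h2⟩ := hb j i hij σ τ
    have h3 := heqv g ⟨i, τ⟩ ⟨j, σ⟩
    have h4 : g • (⟨i, τ⟩ : Σ i, X i) = ⟨i, τ⟩ := by
      change (⟨i, g • τ⟩ : Σ i, X i) = ⟨i, τ⟩
      rw [h2]
    have h5 : g • (⟨j, σ⟩ : Σ i, X i) = cS c ⟨j, σ⟩ := by
      change (⟨j, g • σ⟩ : Σ i, X i) = ⟨j, c j σ⟩
      rw [h1]
    rw [h4, h5, hW.odd _ (hvW _)] at h3
    linarith
  have hfull : ∀ i (x : X i), ∀ h : X i → ℚ, (∀ x, h (c i x) = - h x) →
      ∃ w ∈ W, ∀ x, w ⟨i, x⟩ = h x := by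
    intro i x₀ h hh
    let Wi : Submodule ℚ (X i → ℚ) := W.map
      (LinearMap.funLeft ℚ ℚ (fun x : X i => (⟨i, x⟩ : Σ i, X i)))
    have hWi : OS G (c i) Wi := by
      constructor
      · rintro _ ⟨w, hw, rfl⟩ x
        exact hW.odd w hw ⟨i, x⟩
      · rintro g _ ⟨w, hw, rfl⟩
        exact ⟨_, hW.stab g w hw, rfl⟩
    have hmemWi : ∀ w ∈ W, (fun x => w ⟨i, x⟩) ∈ Wi := fun w hw => ⟨w, hw, rfl⟩
    rcases ha i Wi hWi with h1 | h1 | ⟨S, hS, h1⟩
    · exfalso
      apply hcS' ⟨i, x₀⟩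
      apply hsep
      intro w hw
      have h2 := hmemWi w hw
      rw [h1, Submodule.mem_bot] at h2
      have h3 := congrFun h2 x₀
      have h4 : w ⟨i, x₀⟩ = 0 := h3
      rw [hW.odd w hw, h4, neg_zero]
    · obtain ⟨w, hw, hwh⟩ := h1 h hh
      exact ⟨w, hw, fun x => congrFun hwh x⟩
    · exfalso
      apply hS x₀
      have h2 : (⟨i, S x₀⟩ : Σ i, X i) = ⟨i, x₀⟩ := by
        apply hsep
        intro w hw
        exact h1 _ (hmemWi w hw) x₀
      exact eq_of_heq (Sigma.mk.inj h2).2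
  have hdd : ∀ y, dd (cS c) y ∈ W := by
    intro y
    obtain ⟨w, hw, hwy⟩ := hfull y.1 y.2 (fun x => dd (cS c) y ⟨y.1, x⟩ - v y ⟨y.1, x⟩) (by
      intro x
      have h1 := dd_odd (cS c) hcS y ⟨y.1, x⟩
      have h2 := hW.odd _ (hvW y) ⟨y.1, x⟩
      change dd (cS c) y (cS c ⟨y.1, x⟩) - v y (cS c ⟨y.1, x⟩) = _
      rw [h1, h2]
      ring)
    have h1 : ∀ z : Σ i, X i, z.1 ≠ y.1 → dd (cS c) y z - v y z = 0 := by
      intro z hz
      rw [hsupp y z hz, sub_zero]
      unfold dd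
      rw [if_neg (fun h => hz (by rw [h])), if_neg (fun h => hz (by rw [h]; rfl)), sub_zero]
    have h2 := hv y w hw
    rw [Fintype.sum_sigma, Finset.sum_eq_single y.1] at h2
    · have h3 : (fun x => dd (cS c) y ⟨y.1, x⟩ - v y ⟨y.1, x⟩) = 0 := by
        apply dot_self_eq_zero
        rw [← h2]
        exact Finset.sum_congr rfl fun x _ => by rw [hwy]
      have h4 : dd (cS c) y = v y := by
        funext z
        by_cases hz : z.1 = y.1
        · obtain ⟨l, a⟩ := z
          have hz' : l = y.1 := hz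
          subst hz'
          exact sub_eq_zero.1 (congrFun h3 a)
        · exact sub_eq_zero.1 (h1 z hz)
      rw [h4]
      exact hvW y
    · intro l _ hl
      refine Finset.sum_eq_zero fun a _ => ?_
      rw [h1 ⟨l, a⟩ hl, zero_mul]
    · intro h
      exact absurd (Finset.mem_univ _) h
  have hfsum : f = (1 / 2 : ℚ) • ∑ y, f y • dd (cS c) y := by
    funext z
    rw [Pi.smul_apply, Finset.sum_apply, smul_eq_mul]
    have h1 : ∑ y, (f y • dd (cS c) y) z = 2 * f z := by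
      have h2 : ∀ y, (f y • dd (cS c) y) z = dd (cS c) z y * f y := by
        intro y
        rw [Pi.smul_apply, smul_eq_mul, mul_comm, dd_symm (cS c) hcS]
      simp only [h2]
      exact dd_dot (cS c) z f hf
    rw [h1]
    ring
  rw [hfsum]
  exact W.smul_mem _ (Submodule.sum_mem _ fun y _ => W.smul_mem _ (hdd y))

end Pool.Agent.Helper43x.UC
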