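import Mathlib
import Pool.Agent.Helper43x.UC.Crit
import Pool.Agent.Helper43x.UC.Fam

/-!
# CM fields without exotic Tate classes: Galois theory and the main equivalences
-/

set_option autoImplicit false

namespace Pool.Agent.Helper43x.UC

open NumberField NumberField.IsCMField Pool.Agent.H485R3 Pool.Agent.H925R2
open Pool.Agent.Helper43x.ZO

section action

variable {A : Type} [Field A]

/-- the automorphisms act on the embeddings -/
instance instActEmb {K : Type} [Field K] : MulAction (A ≃+* A) (K →+* A) where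
  smul g σ := (g : A →+* A).comp σ
  one_smul σ := RingHom.ext fun z => rfl
  mul_smul g h σ := RingHom.ext fun z => rfl

theorem smul_def {K : Type} [Field K] (g : A ≃+* A) (σ : K →+* A) :
    g • σ = (g : A →+* A).comp σ := rfl

theorem smul_apply {K : Type} [Field K] (g : A ≃+* A) (σ : K →+* A) (z : K) :
    (g • σ) z = g (σ z) := rfl

variable [Algebra ℚ A] [IsAlgClosed A] [Algebra.IsAlgebraic ℚ A] [CharZero A]

theorem exists_smul_eq {K : Type} [Field K] [NumberField K] (σ τ : K →+* A) :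
    ∃ g : A ≃+* A, g • σ = τ := by
  have : Fact (Nat.Prime 2) := ⟨Nat.prime_two⟩
  let e₀ : A →+* PadicAlgCl 2 := (IsAlgClosed.lift : A →ₐ[ℚ] PadicAlgCl 2).toRingHom
  obtain ⟨e, he⟩ := exists_embedding' 2 σ (e₀.comp τ)
  obtain ⟨g, rfl⟩ := exists_aut e₀ e
  refine ⟨g, RingHom.ext fun z => e₀.injective ?_⟩
  exact congrArg (fun f : K →+* PadicAlgCl 2 => f z) he

theorem exists_complexConj (A : Type) [Field A] [Algebra ℚ A] [IsAlgClosed A]
    [Algebra.IsAlgebraic ℚ A] [CharZero A] : ∃ γ : A ≃+* A, ∀ {K : Type} [Field K] [NumberField K]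
    [IsCMField K] (σ : K →+* A), γ • σ = bar σ := by
  let ι : A →+* ℂ := (IsAlgClosed.lift : A →ₐ[ℚ] ℂ).toRingHom
  obtain ⟨γ, hγ⟩ := exists_aut ι ((starRingEnd ℂ).comp ι)
  refine ⟨γ, fun {K} _ _ _ σ => RingHom.ext fun z => ι.injective ?_⟩
  have h1 : starRingEnd ℂ (ι (σ z)) = ι (γ (σ z)) :=
    congrArg (fun f : A →+* ℂ => f (σ z)) hγ
  rw [smul_apply, ← h1, bar_apply]
  exact (complexEmbedding_complexConj K (ι.comp σ) z).symm

theorem bar_smul {K : Type} [Field K] [NumberField K] [IsCMField K] (g : A ≃+* A)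
    (σ : K →+* A) : bar (g • σ) = g • bar σ := rfl

/-- an equivariant map is given by an automorphism -/
theorem exists_automorphism {K : Type} [Field K] [NumberField K] (S : (K →+* A) → (K →+* A))
    (hS : ∀ (g : A ≃+* A) σ, S (g • σ) = g • S σ) :
    ∃ s : K ≃+* K, ∀ σ, S σ = σ.comp (s : K →+* K) := by
  let x₀ : K →+* A := (IsAlgClosed.lift : K →ₐ[ℚ] A).toRingHom
  have hex : ∀ z : K, ∃ w : K, x₀ w = S x₀ z := by
    intro z
    let _ : Algebra K A := x₀.toAlgebra
    have _ : IsScalarTower ℚ K A := IsScalarTower.of_algebraMap_eq fun q => by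
      change _ = x₀ (algebraMap ℚ K q)
      rw [eq_ratCast, eq_ratCast, map_ratCast]
    have _ : Algebra.IsAlgebraic K A := Algebra.IsAlgebraic.tower_top (K := ℚ) K
    have _ : IsAlgClosure K A := ⟨inferInstance, inferInstance⟩
    have h1 : S x₀ z ∈ (⊥ : IntermediateField K A) := by
      rw [InfiniteGalois.mem_bot_iff_fixed]
      intro f
      have h2 : f.toRingEquiv • x₀ = x₀ := RingHom.ext fun w => f.commutes w
      have h3 := hS f.toRingEquiv x₀
      rw [h2] at h3
      exact (congrArg (fun φ : K →+* A => φ z) h3).symm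
    rw [IntermediateField.mem_bot] at h1
    exact h1
  choose w hw using hex
  let s : K →+* K :=
    { toFun := w
      map_one' := x₀.injective (by rw [hw, map_one, map_one])
      map_zero' := x₀.injective (by rw [hw, map_zero, map_zero])
      map_mul' := fun x y => x₀.injective (by rw [hw, map_mul, map_mul, hw, hw])
      map_add' := fun x y => x₀.injective (by rw [hw, map_add, map_add, hw, hw]) }
  have hbij : Function.Bijective s :=
    Algebra.IsAlgebraic.algHom_bijective (s.toRatAlgHom : K →ₐ[ℚ] K)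
  refine ⟨RingEquiv.ofBijective s hbij, fun σ => ?_⟩
  obtain ⟨g, rfl⟩ := exists_smul_eq x₀ σ
  rw [hS]
  ext z
  rw [smul_apply, ← hw]
  rfl

end action

section main

variable {I : Type} [Fintype I] {K : I → Type} [∀ i, Field (K i)] [∀ i, NumberField (K i)]
  [∀ i, IsCMField (K i)] {A : Type} [Field A] [CharZero A]

theorem crit3_iff : Crit3 K A ↔ C3 (A ≃+* A) (cS fun i => bar (K := K i) (A := A)) := by
  constructor
  · intro h W hW hsep f hf
    exact h W ⟨hW.odd, hW.stab⟩ hsep f hf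
  · intro h W hW hsep f hf
    exact h W ⟨hW.1, hW.2⟩ hsep f hf

/-- the stable spaces of odd functions of one field -/
def Small (K : Type) [Field K] [NumberField K] [IsCMField K] (A : Type) [Field A] : Prop :=
  ∀ W : Submodule ℚ ((K →+* A) → ℚ),
    (∀ f ∈ W, ∀ σ, f (bar σ) = - f σ) →
    (∀ g : A ≃+* A, ∀ f ∈ W, (fun σ => f ((g : A →+* A).comp σ)) ∈ W) →
    W = ⊥ ∨ (∀ f, (∀ σ, f (bar σ) = - f σ) → f ∈ W) ∨
      ∃ s : K ≃+* K, s ≠ RingEquiv.refl K ∧ (s : K →+* K) ≠ (complexConj K : K →+* K) ∧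
        ∀ f, f ∈ W ↔ (∀ σ, f (bar σ) = - f σ) ∧ ∀ σ, f (σ.comp (s : K →+* K)) = f σ

variable [Algebra ℚ A] [IsAlgClosed A] [Algebra.IsAlgebraic ℚ A]

theorem small_of_crit (h : Crit3 K A) (i : I) : Small (K i) A := by
  classical
  intro W hodd hstab
  have h1 := (C3_iff (cS fun i => bar (K := K i) (A := A))
    (cS_cS _ fun i x => bar_bar x) (cS_smul _ fun i g x => bar_smul g x)).1 (crit3_iff.1 h)
  have h2 : C3' (A ≃+* A) (bar (K := K i) (A := A)) :=
    part_of_C3' (fun i => bar (K := K i) (A := A)) (fun i x => bar_ne x) h1 i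
  by_cases hW0 : W = ⊥
  · exact Or.inl hW0
  by_cases hW1 : ∀ f ∈ oddSub (bar (K := K i) (A := A)), f ∈ W
  · exact Or.inr (Or.inl hW1)
  right
  right
  obtain ⟨S, hS1, hS2, hS3⟩ := block_lemma (G := A ≃+* A) (bar (K := K i) (A := A))
    (fun x => bar_bar x) (fun x => bar_ne x) (fun g x => bar_smul g x)
    (fun x y => exists_smul_eq x y) h2 W ⟨hodd, hstab⟩ hW0 hW1
  obtain ⟨s, hs⟩ := exists_automorphism S hS2
  let x₀ : K i →+* A := (IsAlgClosed.lift : K i →ₐ[ℚ] A).toRingHom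
  refine ⟨s, ?_, ?_, ?_⟩
  · rintro rfl
    apply (hS1 x₀).1
    rw [hs]
    rfl
  · intro hsc
    apply (hS1 x₀).2
    rw [hs, hsc]
    rfl
  · intro f
    rw [hS3]
    constructor
    · rintro ⟨h3, h4⟩
      exact ⟨h3, fun σ => by rw [← hs, h4]⟩
    · rintro ⟨h3, h4⟩
      exact ⟨h3, fun σ => by rw [hs, h4]⟩

theorem indep_of_crit (h : Crit3 K A) (i j : I) (hij : i ≠ j) (σ : K i →+* A) (τ : K j →+* A) :
    ∃ g : A ≃+* A, (g : A →+* A).comp σ = bar σ ∧ (g : A →+* A).comp τ = τ := by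
  have h1 := (C3_iff (cS fun i => bar (K := K i) (A := A))
    (cS_cS _ fun i x => bar_bar x) (cS_smul _ fun i g x => bar_smul g x)).1 (crit3_iff.1 h)
  obtain ⟨γ, hγ⟩ := exists_complexConj A
  exact b_of_C3' (fun i => bar (K := K i) (A := A)) (fun i x => bar_bar x) (fun i x => bar_ne x)
    (fun i g x => bar_smul g x) γ (fun i x => hγ x) h1 i j hij σ τ

theorem crit_of_small (h1 : ∀ i, Small (K i) A)
    (h2 : ∀ i j, i ≠ j → ∀ (σ : K i →+* A) (τ : K j →+* A),
      ∃ g : A ≃+* A, (g : A →+* A).comp σ = bar σ ∧ (g : A →+* A).comp τ = τ) : Crit3 K A := by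
  rw [crit3_iff]
  refine C3_of_parts (fun i => bar (K := K i) (A := A)) (fun i x => bar_bar x)
    (fun i x => bar_ne x) (fun i g x => bar_smul g x) ?_ h2
  intro i W hW
  rcases h1 i W hW.odd hW.stab with h3 | h3 | ⟨s, hs1, _, hs3⟩
  · exact Or.inl h3
  · exact Or.inr (Or.inl h3)
  · refine Or.inr (Or.inr ⟨fun σ => σ.comp (s : K i →+* K i), fun σ hσ => hs1 ?_,
      fun f hf σ => ((hs3 f).1 hf).2 σ⟩)
    ext z
    apply σ.injective
    exact congrArg (fun f : K i →+* A => f z) hσ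

/-- the main equivalences -/
theorem main_tfae (K : I → Type) [∀ i, Field (K i)] [∀ i, NumberField (K i)]
    [∀ i, IsCMField (K i)] (A : Type) [Field A] [CharZero A] [Algebra ℚ A] [IsAlgClosed A]
    [Algebra.IsAlgebraic ℚ A] :
    List.TFAE [∀ p : ℕ, p.Prime → GoodAt p K,
      ∃ (p : ℕ) (_ : Fact p.Prime), (∀ i, ∀ y : K i →+* PadicAlgCl p, ∃ x : K i →+* ℚ_[p],
        y = (algebraMap ℚ_[p] (PadicAlgCl p)).comp x) ∧ GoodAt p K,
      Crit3 K A,
      (∀ i, Small (K i) A) ∧ ∀ i j, i ≠ j → ∀ (σ : K i →+* A) (τ : K j →+* A),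
        ∃ g : A ≃+* A, (g : A →+* A).comp σ = bar σ ∧ (g : A →+* A).comp τ = τ] := by
  tfae_have 1 → 2 := by
    intro h
    obtain ⟨p, hp, hsplit⟩ := exists_split K
    exact ⟨p, hp, hsplit, h p hp.out⟩
  tfae_have 2 → 3 := by
    rintro ⟨p, hp, hsplit, h⟩
    exact crit_of_good p hsplit h
  tfae_have 3 → 1 := by
    intro h p hp
    have : Fact p.Prime := ⟨hp⟩
    exact good_of_crit h p
  tfae_have 3 → 4 := fun h => ⟨small_of_crit h, indep_of_crit h⟩
  tfae_have 4 → 3 := fun h => crit_of_small h.1 h.2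
  tfae_finish

end main

end Pool.Agent.Helper43x.UC
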